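import Mathlib

set_option autoImplicit false

open Polynomial

/-!
# Powers of Perron numbers that are Parry numbers: the conjugates

If `β > 1` is an algebraic integer, the orbit of `1` under `x ↦ fract (β ^ n x)` is finite and `γ`
is a conjugate of `β` with `γ ^ n ≠ β ^ n` then `|γ| ^ n ≤ 2`.  For a Perron number of degree `d`
this gives `M(β) ^ n ≤ 2 ^ (d - 1) β ^ n`.
-/

namespace Pool.Agent.H892.Parry

/-- The orbit of `1` under the `B`-transformation. -/
noncomputable def orb (B : ℝ) (k : ℕ) : ℝ := (fun x : ℝ => Int.fract (B * x))^[k] (1 : ℝ)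

lemma orb_zero (B : ℝ) : orb B 0 = 1 := rfl

lemma orb_succ (B : ℝ) (k : ℕ) : orb B (k + 1) = Int.fract (B * orb B k) := by
  unfold orb
  rw [Function.iterate_succ_apply']

lemma orb_le_one (B : ℝ) (k : ℕ) : orb B k ≤ 1 := by
  cases k with
  | zero => exact le_refl _
  | succ k => rw [orb_succ]; exact (Int.fract_lt_one _).le

lemma orb_nonneg (B : ℝ) (k : ℕ) : 0 ≤ orb B k := by
  cases k with
  | zero => rw [orb_zero]; norm_num
  | succ k => rw [orb_succ]; exact Int.fract_nonneg _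

/-- The integer polynomials `q_k` with `q_k(β) = T^k(1)` for the `β ^ n`-transformation `T`. -/
noncomputable def q (β : ℝ) (n : ℕ) : ℕ → ℤ[X]
  | 0 => 1
  | k + 1 => X ^ n * q β n k - C ⌊β ^ n * orb (β ^ n) k⌋

lemma aeval_q (β : ℝ) (n k : ℕ) : aeval β (q β n k) = orb (β ^ n) k := by
  induction k with
  | zero => simp [q, orb_zero]
  | succ k ih =>
    rw [q, map_sub, map_mul, ih, orb_succ, Int.fract]
    simp

/-- The conjugate orbit. -/
noncomputable def y (β : ℝ) (n : ℕ) (γ : ℂ) (k : ℕ) : ℂ := aeval γ (q β n k)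

lemma y_succ (β : ℝ) (n : ℕ) (γ : ℂ) (k : ℕ) :
    y β n γ (k + 1) = γ ^ n * y β n γ k - (⌊β ^ n * orb (β ^ n) k⌋ : ℤ) := by
  simp [y, q]

lemma y_eq {β : ℝ} (hβ : IsIntegral ℤ β) {n : ℕ} {γ : ℂ}
    (hγ : aeval γ (minpoly ℤ β) = 0) {i j : ℕ} (h : orb (β ^ n) i = orb (β ^ n) j) :
    y β n γ i = y β n γ j := by
  have h1 : aeval β (q β n i - q β n j) = 0 := by
    rw [map_sub, aeval_q, aeval_q, h, sub_self]
  obtain ⟨r, hr⟩ := minpoly.isIntegrallyClosed_dvd hβ h1
  have h2 : aeval γ (q β n i - q β n j) = 0 := by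
    rw [hr, map_mul, hγ, zero_mul]
  rw [map_sub, sub_eq_zero] at h2
  exact h2

lemma y_bounded {β : ℝ} (hβ : IsIntegral ℤ β) {n : ℕ} {γ : ℂ}
    (hγ : aeval γ (minpoly ℤ β) = 0) (hfin : Set.Finite (Set.range (orb (β ^ n)))) :
    ∃ K : ℝ, ∀ k, ‖y β n γ k‖ ≤ K := by
  classical
  let g : ℝ → ℂ := fun x => if h : ∃ k, orb (β ^ n) k = x then y β n γ h.choose else 0
  have hg : ∀ k, g (orb (β ^ n) k) = y β n γ k := by
    intro k
    have h : ∃ j, orb (β ^ n) j = orb (β ^ n) k := ⟨k, rfl⟩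
    have h1 : g (orb (β ^ n) k) = y β n γ h.choose := dif_pos h
    rw [h1]
    exact y_eq hβ hγ h.choose_spec
  have hfin2 := (hfin.image (fun x => ‖g x‖)).bddAbove
  obtain ⟨K, hK⟩ := hfin2
  refine ⟨K, fun k => ?_⟩
  apply hK
  exact ⟨orb (β ^ n) k, ⟨k, rfl⟩, by simp only [hg]⟩

theorem conj_le_two {β : ℝ} (hβ : IsIntegral ℤ β) {n : ℕ} {γ : ℂ}
    (hγ : aeval γ (minpoly ℤ β) = 0) (hfin : Set.Finite (Set.range (orb (β ^ n))))
    (hne : γ ^ n ≠ (β : ℂ) ^ n) : ‖γ‖ ^ n ≤ 2 := by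
  by_contra hlt
  push Not at hlt
  rw [← norm_pow] at hlt
  obtain ⟨K, hK⟩ := y_bounded hβ hγ hfin
  set G : ℂ := γ ^ n with hG
  set g : ℝ := ‖G‖ with hg
  set b : ℝ := ‖(β : ℂ) ^ n - G‖ with hb
  have hb0 : 0 < b := by
    rw [hb, norm_pos_iff]
    intro h
    exact hne (sub_eq_zero.mp h).symm
  let D : ℕ → ℂ := fun k => y β n γ k - (orb (β ^ n) k : ℂ)
  have hD0 : D 0 = 0 := by simp [D, y, q, orb_zero]
  have hDs : ∀ k, D (k + 1) = G * D k - ((β : ℂ) ^ n - G) * (orb (β ^ n) k : ℂ) := by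
    intro k
    simp only [D]
    rw [y_succ, orb_succ, Int.fract]
    push_cast
    ring
  have hg1 : 0 < g - 1 := by linarith
  have hstep : ∀ k, b - b / (g - 1) ≤ ‖D (k + 1)‖ - b / (g - 1) ∧
      g ^ k * (b - b / (g - 1)) ≤ ‖D (k + 1)‖ - b / (g - 1) := by
    intro k
    have hc : 0 < b - b / (g - 1) := by
      have : b / (g - 1) < b := by
        rw [div_lt_iff₀ hg1]
        nlinarith
      linarith
    induction k with
    | zero =>
      have : ‖D 1‖ = b := by
        rw [hDs 0, hD0, orb_zero]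
        simp [hb, ← norm_neg ((β : ℂ) ^ n - G)]
      rw [this]
      simp
    | succ k ih =>
      have h1 : ‖G * D (k + 1)‖ - ‖((β : ℂ) ^ n - G) * (orb (β ^ n) (k + 1) : ℂ)‖ ≤
          ‖D (k + 1 + 1)‖ := by
        rw [hDs (k + 1)]
        exact norm_sub_norm_le _ _
      rw [norm_mul, norm_mul] at h1
      have h2 : ‖(orb (β ^ n) (k + 1) : ℂ)‖ ≤ 1 := by
        rw [Complex.norm_real, Real.norm_eq_abs, abs_of_nonneg (orb_nonneg _ _)]
        exact orb_le_one _ _
      have h3 : b * ‖(orb (β ^ n) (k + 1) : ℂ)‖ ≤ b := by nlinarith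
      have h4 : g * ‖D (k + 1)‖ - b ≤ ‖D (k + 1 + 1)‖ := by linarith
      have h5 : g * (‖D (k + 1)‖ - b / (g - 1)) = g * ‖D (k + 1)‖ - b - b / (g - 1) := by
        field_simp
        ring
      have h6 : g * (‖D (k + 1)‖ - b / (g - 1)) ≤ ‖D (k + 1 + 1)‖ - b / (g - 1) := by
        rw [h5]; linarith
      have hgk : g ^ (k + 1) * (b - b / (g - 1)) ≤ ‖D (k + 1 + 1)‖ - b / (g - 1) := by
        refine le_trans ?_ h6
        rw [pow_succ]
        have := ih.2
        nlinarith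
      refine ⟨?_, hgk⟩
      refine le_trans ?_ hgk
      have : (1 : ℝ) ≤ g ^ (k + 1) := one_le_pow₀ (by linarith)
      nlinarith
  have hc : 0 < b - b / (g - 1) := by
    have : b / (g - 1) < b := by
      rw [div_lt_iff₀ hg1]
      nlinarith
    linarith
  obtain ⟨k, hk⟩ := pow_unbounded_of_one_lt ((K + 1) / (b - b / (g - 1))) (by linarith : 1 < g)
  rw [div_lt_iff₀ hc] at hk
  have h1 := (hstep k).2
  have h2 : ‖D (k + 1)‖ ≤ K + 1 := by
    refine (norm_sub_le _ _).trans ?_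
    have h3 : ‖(orb (β ^ n) (k + 1) : ℂ)‖ ≤ 1 := by
      rw [Complex.norm_real, Real.norm_eq_abs, abs_of_nonneg (orb_nonneg _ _)]
      exact orb_le_one _ _
    linarith [hK (k + 1)]
  have h3 : 0 ≤ b / (g - 1) := by positivity
  linarith

lemma prod_le_pow (n : ℕ) (s : Multiset ℂ) (h : ∀ z ∈ s, ‖z‖ ^ n ≤ 2) :
    ((s.map (fun a => max 1 ‖a‖)).prod) ^ n ≤ 2 ^ (Multiset.card s) := by
  induction s using Multiset.induction_on with
  | empty => simp
  | cons a s ih =>
    rw [Multiset.map_cons, Multiset.prod_cons, mul_pow, Multiset.card_cons, pow_succ, mul_comm]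
    have h1 : (max 1 ‖a‖) ^ n ≤ 2 := by
      rcases le_total ‖a‖ 1 with h1 | h1
      · rw [max_eq_left h1]; simp
      · rw [max_eq_right h1]; exact h a (Multiset.mem_cons_self a s)
    have h2 := ih (fun z hz => h z (Multiset.mem_cons_of_mem hz))
    have h3 : 0 ≤ (s.map (fun a => max 1 ‖a‖)).prod :=
      Multiset.prod_nonneg (by
        intro x hx
        obtain ⟨z, -, rfl⟩ := Multiset.mem_map.mp hx
        positivity)
    exact mul_le_mul h2 h1 (by positivity) (by positivity)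

/-- For a Perron number `β` of degree `d`: if the orbit of `1` under `x ↦ fract (β ^ n x)` is finite
(`n ≥ 1`) then `M(β) ^ n ≤ 2 ^ (d - 1) β ^ n`. -/
theorem mahler_pow_le {β : ℝ} (h1β : 1 < β) (hβ : IsIntegral ℤ β)
    (hP : ∀ z : ℂ, aeval z (minpoly ℤ β) = 0 → z ≠ (β : ℂ) → ‖z‖ < β) {n : ℕ} (hn : 1 ≤ n)
    (hfin : Set.Finite (Set.range (orb (β ^ n)))) :
    (((minpoly ℤ β).map (algebraMap ℤ ℂ)).mahlerMeasure) ^ n ≤
      2 ^ ((minpoly ℤ β).natDegree - 1) * β ^ n := by
  classical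
  set f := minpoly ℤ β with hf
  have hmon : f.Monic := minpoly.monic hβ
  set P := f.map (algebraMap ℤ ℂ) with hPdef
  have hPmon : P.Monic := hmon.map _
  have hP0 : P ≠ 0 := hPmon.ne_zero
  have hroot : ∀ z : ℂ, z ∈ P.roots ↔ aeval z f = 0 := by
    intro z
    rw [mem_roots hP0, IsRoot.def, hPdef, eval_map_algebraMap]
  have hβroot : (β : ℂ) ∈ P.roots := by
    rw [hroot]
    have h1 : aeval (algebraMap ℝ ℂ β) f = algebraMap ℝ ℂ (aeval β f) := by
      rw [aeval_algebraMap_apply]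
    have h2 : aeval β f = 0 := minpoly.aeval ℤ β
    rw [h2, map_zero] at h1
    exact h1
  have hirr : Irreducible (f.map (algebraMap ℤ ℚ)) := by
    rw [← hmon.irreducible_iff_irreducible_map_fraction_map]
    exact minpoly.irreducible hβ
  have hsep : (f.map (algebraMap ℤ ℚ)).Separable := hirr.separable
  have hmap : P = (f.map (algebraMap ℤ ℚ)).map (algebraMap ℚ ℂ) := by
    rw [Polynomial.map_map, hPdef]
    congr 1
  have hnodup : P.roots.Nodup := by
    rw [hmap]
    exact nodup_roots hsep.map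
  have hsplit : Multiset.card P.roots = f.natDegree := by
    have h1 : P.Splits := IsAlgClosed.splits P
    rw [← h1.natDegree_eq_card_roots, hPdef, hmon.natDegree_map]
  have hprod : P.mahlerMeasure = β * ((P.roots.erase (β : ℂ)).map (fun a => max 1 ‖a‖)).prod := by
    rw [mahlerMeasure_eq_leadingCoeff_mul_prod_roots, hPmon.leadingCoeff, norm_one, one_mul]
    conv_lhs => rw [← Multiset.cons_erase hβroot]
    rw [Multiset.map_cons, Multiset.prod_cons]
    congr 1
    rw [Complex.norm_real, Real.norm_eq_abs, abs_of_pos (by linarith)]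
    exact max_eq_right h1β.le
  have hbound := prod_le_pow n (P.roots.erase (β : ℂ)) (by
    intro z hz
    rw [Multiset.Nodup.mem_erase_iff hnodup] at hz
    have hz2 : aeval z f = 0 := (hroot z).mp hz.2
    have hlt := hP z hz2 hz.1
    apply conj_le_two hβ hz2 hfin
    intro h
    have h2 : ‖z‖ ^ n = β ^ n := by
      rw [← norm_pow, h, norm_pow, Complex.norm_real, Real.norm_eq_abs, abs_of_pos (by linarith)]
    have h3 : ‖z‖ ^ n < β ^ n := pow_lt_pow_left₀ hlt (norm_nonneg _) (by omega)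
    linarith)
  rw [Multiset.card_erase_of_mem hβroot, hsplit] at hbound
  rw [hprod, mul_pow, mul_comm]
  have : (0 : ℝ) ≤ β ^ n := by positivity
  exact mul_le_mul_of_nonneg_right hbound this

end Pool.Agent.H892.Parry
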