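import Mathlib
import Pool.Agent.H338R2.FourF
import Pool.Agent.H388SL.Fin
import Pool.Agent.H892.Parry.Basic

/-!
# Common lemmas for the results on powers of small Perron numbers
-/

set_option autoImplicit false

open Polynomial

namespace Pool.Agent.H892.Parry

/-- `B` is a Parry number: the orbit of `1` under `x ↦ B x - ⌊B x⌋` is finite. -/
def IsParry (B : ℝ) : Prop :=
  Set.Finite (Set.range (fun k : ℕ => (fun x : ℝ => Int.fract (B * x))^[k] (1 : ℝ)))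

/-- `β` is a Perron number. -/
def IsPerron (β : ℝ) : Prop :=
  1 < β ∧ IsIntegral ℤ β ∧ ∀ z : ℂ, aeval z (minpoly ℤ β) = 0 → z ≠ (β : ℂ) → ‖z‖ < β

/-- The Mahler measure of the minimal polynomial of `β`. -/
noncomputable def M (β : ℝ) : ℝ := ((minpoly ℤ β).map (Int.castRingHom ℂ)).mahlerMeasure

/-- The degree of `β`. -/
noncomputable def deg (β : ℝ) : ℕ := (minpoly ℤ β).natDegree

lemma transfer {β : ℝ} (hβ : IsIntegral ℤ β) {z : ℂ} (hz : aeval z (minpoly ℤ β) = 0)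
    (g : ℤ[X]) (hg : aeval z g = 0) : aeval β g = 0 := by
  have hzint : IsIntegral ℤ z := ⟨minpoly ℤ β, minpoly.monic hβ, hz⟩
  have hdvd : minpoly ℤ z ∣ minpoly ℤ β := minpoly.isIntegrallyClosed_dvd hzint hz
  have hass : Associated (minpoly ℤ z) (minpoly ℤ β) :=
    ((minpoly.irreducible hzint).dvd_irreducible_iff_associated (minpoly.irreducible hβ)).mp hdvd
  have heq : minpoly ℤ z = minpoly ℤ β :=
    eq_of_monic_of_associated (minpoly.monic hzint) (minpoly.monic hβ) hass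
  obtain ⟨r, hr⟩ := minpoly.isIntegrallyClosed_dvd hzint hg
  rw [hr, heq, map_mul, minpoly.aeval, zero_mul]

lemma noCyc {β : ℝ} (h1 : 1 < β) (hβ : IsIntegral ℤ β) (z : ℂ)
    (hz : aeval z (minpoly ℤ β) = 0) : z ≠ 0 ∧ ∀ n : ℕ, 0 < n → z ^ n ≠ 1 := by
  constructor
  · rintro rfl
    have h := transfer hβ hz X (by simp)
    rw [aeval_X] at h
    linarith
  · intro n hn h
    have h2 := transfer hβ hz (X ^ n - 1) (by simp [h])
    have h3 : β ^ n - 1 = 0 := by simpa using h2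
    have h4 : 1 < β ^ n := one_lt_pow₀ h1 (by omega)
    linarith

lemma noCyc' {β : ℝ} (h1 : 1 < β) (hβ : IsIntegral ℤ β) :
    Pool.Agent.H338R2.NoCyc (minpoly ℤ β) := by
  intro z hz
  apply noCyc h1 hβ z
  rw [Polynomial.aeval_def, ← Polynomial.eval_map]
  exact hz

lemma general {β : ℝ} (h : IsPerron β) {n : ℕ} (hn : 1 ≤ n) (hp : IsParry (β ^ n)) :
    M β ^ n ≤ 2 ^ (deg β - 1) * β ^ n :=
  Pool.Agent.H892.Parry.mahler_pow_le h.1 h.2.1 h.2.2 hn hp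

lemma deg_pos {β : ℝ} (hβ : IsIntegral ℤ β) : 1 ≤ deg β := minpoly.natDegree_pos hβ

lemma one_le_M {β : ℝ} (hβ : IsIntegral ℤ β) : 1 ≤ M β :=
  Polynomial.one_le_mahlerMeasure_of_ne_zero (minpoly.monic hβ).ne_zero

lemma lehmer_lt {τ : ℝ} (h1 : 1 < τ)
    (h : τ ^ 10 + τ ^ 9 - τ ^ 7 - τ ^ 6 - τ ^ 5 - τ ^ 4 - τ ^ 3 + τ + 1 = 0) :
    τ < 1.17629 := by
  by_contra hlt
  push Not at hlt
  obtain ⟨s, rfl⟩ : ∃ s : ℝ, τ = 1.17629 + s := ⟨τ - 1.17629, by ring⟩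
  have hs : 0 ≤ s := by linarith
  have h2 : (0:ℝ) < (1.17629 + s) ^ 10 + (1.17629 + s) ^ 9 - (1.17629 + s) ^ 7 -
      (1.17629 + s) ^ 6 - (1.17629 + s) ^ 5 - (1.17629 + s) ^ 4 - (1.17629 + s) ^ 3 +
      (1.17629 + s) + 1 := by
    ring_nf
    positivity
  linarith

lemma key {m β B r A : ℝ} {s t d n : ℕ} (hβ : 0 < β) (hβB : β ≤ B)
    (hr1 : 1 ≤ r) (h1 : r * B ^ s ≤ A) (hA : A ≤ m ^ s) (hr : 2 ≤ r ^ t) (hm : 0 ≤ m)
    (hs : 1 ≤ s) (hd : 1 ≤ d) (hn : t * s * d ≤ n) (hle : m ^ n ≤ 2 ^ (d - 1) * β ^ n) :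
    False := by
  have hB : 0 < B := lt_of_lt_of_le hβ hβB
  have e1 : (r * B ^ s) ^ n ≤ (m ^ s) ^ n := pow_le_pow_left₀ (by positivity) (h1.trans hA) n
  have e2 : (m ^ s) ^ n = (m ^ n) ^ s := by rw [← pow_mul, ← pow_mul, mul_comm]
  have e3 : (m ^ n) ^ s ≤ (2 ^ (d - 1) * B ^ n) ^ s := by
    apply pow_le_pow_left₀ (by positivity)
    refine hle.trans ?_
    gcongr
  have e4 : (2 ^ (d - 1) * B ^ n) ^ s = (2 : ℝ) ^ ((d - 1) * s) * (B ^ s) ^ n := by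
    rw [mul_pow, ← pow_mul, ← pow_mul, ← pow_mul, mul_comm n s]
  have e5 : r ^ n * (B ^ s) ^ n ≤ (2 : ℝ) ^ ((d - 1) * s) * (B ^ s) ^ n := by
    rw [← mul_pow, ← e4]
    exact (e1.trans e2.le).trans e3
  have e6 : r ^ n ≤ (2 : ℝ) ^ ((d - 1) * s) := le_of_mul_le_mul_right e5 (by positivity)
  have e7 : (2 : ℝ) ^ (s * d) ≤ r ^ n := by
    calc (2 : ℝ) ^ (s * d) ≤ (r ^ t) ^ (s * d) := pow_le_pow_left₀ (by norm_num) hr _
      _ = r ^ (t * s * d) := by rw [← pow_mul, mul_assoc]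
      _ ≤ r ^ n := pow_le_pow_right₀ hr1 hn
  have e8 : (2 : ℝ) ^ (s * d) ≤ (2 : ℝ) ^ ((d - 1) * s) := e7.trans e6
  have e9 : s * d ≤ (d - 1) * s := (pow_le_pow_iff_right₀ (by norm_num)).mp e8
  obtain ⟨d', rfl⟩ : ∃ d', d = d' + 1 := ⟨d - 1, by omega⟩
  rw [Nat.add_sub_cancel, mul_comm d' s, mul_add] at e9
  omega

lemma log_form {β : ℝ} (h : IsPerron β) {n : ℕ} (hn : 1 ≤ n) (hp : IsParry (β ^ n)) :
    n * (Real.log (M β) - Real.log β) < deg β := by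
  have h1 := general h hn hp
  have hM := one_le_M h.2.1
  have hβ : 0 < β := by linarith [h.1]
  have h2 := Real.log_le_log (by positivity) h1
  rw [Real.log_mul (by positivity) (by positivity), Real.log_pow, Real.log_pow, Real.log_pow] at h2
  have hd := deg_pos h.2.1
  have h3 : ((deg β - 1 : ℕ) : ℝ) * Real.log 2 < deg β := by
    have h4 : Real.log 2 < 1 := by linarith [Real.log_two_lt_d9]
    have h5 : ((deg β - 1 : ℕ) : ℝ) = (deg β : ℝ) - 1 := by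
      rw [Nat.cast_sub hd]; simp
    have h6 : (1 : ℝ) ≤ deg β := by exact_mod_cast hd
    have h7 : 0 < Real.log 2 := Real.log_pos (by norm_num)
    rw [h5]
    nlinarith
  linarith

end Pool.Agent.H892.Parry
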